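import Pool.Agent.H96.CV.Basic
import Pool.Agent.H37.CV.All
import Pool.Agent.H20.SM.Targets

/-! DTr: the trivial bound of `Dr`. -/

set_option autoImplicit false

open NumberField NumberField.InfinitePlace Complex Filter Topology MeasureTheory

namespace Pool.Agent.H53.SM

open Pool.Agent.H37.CV Pool.Agent.H28.RC Pool.Agent.H25.HK Pool.Agent.H20.SM Pool.Agent.H96.CV

theorem pf_DTr : T_DTr := by
  classical
  have hCX := a_CX
  have hCB := a_CB
  have hSQ := a_SQ
  have hGU := a_GU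
  have hGC := a_GC
  intro K _ _ _ A
  obtain ⟨C₀, -, hS⟩ := hSQ K
  obtain ⟨C₁, hC₁⟩ := hS A
  obtain ⟨C₂, -, hC₂, -⟩ := hGU K
  refine ⟨|C₂| ^ 3 * (2 * |C₁|) + 1, by positivity, fun m Q M I J hQ hM hI hJ hIJ => ?_⟩
  have hD : Disjoint (pf I) (pf J) := ((hGC K ∅ ∅).2 I J hI hJ hIJ).1
  obtain ⟨hB1, hB2⟩ := hCB (PrI K) np (PM K M) (pf I) (pf J) M two_le_np hM hD
  obtain ⟨-, hG1, hX⟩ := hCX (PrI K) np (PM K M) M two_le_np hM
  set L : ℝ := 1 + Real.log Q + Real.log M with hL
  have hlQ : 0 ≤ Real.log Q := Real.log_nonneg hQ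
  have hlM : 0 ≤ Real.log M := Real.log_nonneg hM
  have hL1 : 1 ≤ L := by linarith
  have hI0 := nm_pos hI
  have hJ0 := nm_pos hJ
  have hIJ1 : 1 ≤ nm I * nm J := by
    have := mul_le_mul (one_le_nm hI) (one_le_nm hJ) zero_le_one hI0.le
    linarith
  set w : ℝ := (nm I * nm J) ^ (-(1 / 2) : ℝ) with hw
  have hw0 : 0 ≤ w := Real.rpow_nonneg (by positivity) _
  set Z0 : ℝ := Q * M ^ 2 / (nm I * nm J) with hZ0
  have hZ00 : 0 < Z0 := by positivity
  set μ : ℝ := min 1 (Z0 ^ A) with hμ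
  have hμ0 : 0 ≤ μ := le_min zero_le_one (by positivity)
  -- the bound for Sm
  have hterm : ∀ S ∈ DM K M, ∀ T ∈ DM K M,
      ‖((xw K M S * xw K M T * (gg np (pf I) (pf J) S T / (nS np S * nS np T)) : ℝ) : ℂ) *
      Sm m (Q * gg np (pf I) (pf J) S T ^ 2 / (nS np S * nS np T * (nm I * nm J)))‖ ≤
      (gg np (pf I) (pf J) S T / (nS np S * nS np T)) * (|C₁| * (2 * L) * μ) := by
    intro S hS' T hT'
    have hSs := (mem_DM.1 hS').1
    have hTs := (mem_DM.1 hT').1
    obtain ⟨g1, g2⟩ := hB1 S hS' T hT'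
    set G : ℝ := gg np (pf I) (pf J) S T with hG
    have hns : 0 < nS np S * nS np T := mul_pos (nS_pos S) (nS_pos T)
    set Z : ℝ := Q * G ^ 2 / (nS np S * nS np T * (nm I * nm J)) with hZ
    have hZp : 0 < Z := by positivity
    have hZle : Z ≤ Z0 := by
      have e1 : Z = Q * (G ^ 2 / (nS np S * nS np T)) / (nm I * nm J) := by
        rw [hZ]
        field_simp
      rw [e1, hZ0]
      gcongr
    have hZlog : max (Real.log Z) 0 ≤ Real.log Q + 2 * Real.log M := by
      refine max_le ?_ (by positivity)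
      have e1 : Real.log Z ≤ Real.log (Q * M ^ 2) := by
        refine Real.log_le_log hZp (hZle.trans ?_)
        exact div_le_self (by positivity) hIJ1
      rw [Real.log_mul (by positivity) (by positivity), Real.log_pow] at e1
      exact_mod_cast e1
    have hSm := hC₁ m Z hZp
    have hSm2 : ‖Sm m Z‖ ≤ |C₁| * (2 * L) * μ := by
      refine hSm.trans ?_
      have h1 : 1 + max (Real.log Z) 0 ≤ 2 * L := by rw [hL]; linarith
      have h2 : min 1 (Z ^ A) ≤ μ := min_le_min le_rfl (by gcongr)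
      have h3 : 0 ≤ 1 + max (Real.log Z) 0 := by
        have := le_max_right (Real.log Z) 0
        linarith
      have h4 : 0 ≤ min 1 (Z ^ A) := le_min zero_le_one (by positivity)
      calc C₁ * (1 + max (Real.log Z) 0) * min 1 (Z ^ A)
          ≤ |C₁| * (1 + max (Real.log Z) 0) * min 1 (Z ^ A) := by
            gcongr
            exact le_abs_self _
        _ ≤ |C₁| * (2 * L) * μ := by gcongr
    rw [norm_mul, Complex.norm_real, Real.norm_eq_abs, abs_mul, abs_mul]
    have hx1 : |xw K M S| ≤ 1 := hX S hSs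
    have hx2 : |xw K M T| ≤ 1 := hX T hTs
    have hgp : 0 ≤ G / (nS np S * nS np T) := by positivity
    rw [abs_of_nonneg hgp]
    have h5 : |xw K M S| * |xw K M T| ≤ 1 := by
      have := mul_le_mul hx1 hx2 (abs_nonneg _) zero_le_one
      simpa using this
    calc |xw K M S| * |xw K M T| * (G / (nS np S * nS np T)) * ‖Sm m Z‖
        ≤ 1 * (G / (nS np S * nS np T)) * (|C₁| * (2 * L) * μ) := by gcongr
      _ = _ := by ring
  have hμC : 0 ≤ |C₁| * (2 * L) * μ := by positivity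
  have hsum : ‖∑ S ∈ DMc m M, ∑ T ∈ DMc m M,
      ((xw K M S * xw K M T * (gg np (pf I) (pf J) S T / (nS np S * nS np T)) : ℝ) : ℂ) *
      Sm m (Q * gg np (pf I) (pf J) S T ^ 2 / (nS np S * nS np T * (nm I * nm J)))‖ ≤
      2 ^ ((pf I).card + (pf J).card) * GS np (PM K M) M ^ 3 * (|C₁| * (2 * L) * μ) := by
    have hsub : DMc m M ⊆ DM K M := Finset.filter_subset _ _
    have hnn : ∀ S ∈ DM K M, ∀ T ∈ DM K M, 0 ≤
        (gg np (pf I) (pf J) S T / (nS np S * nS np T)) * (|C₁| * (2 * L) * μ) :=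
      fun S hS' T hT' => (norm_nonneg _).trans (hterm S hS' T hT')
    refine (norm_sum_le _ _).trans ?_
    refine (Finset.sum_le_sum fun S hS' => (norm_sum_le _ _).trans
      (Finset.sum_le_sum fun T hT' => hterm S (hsub hS') T (hsub hT'))).trans ?_
    refine (Finset.sum_le_sum fun S hS' =>
      Finset.sum_le_sum_of_subset_of_nonneg hsub fun T hT' _ => hnn S (hsub hS') T hT').trans ?_
    refine (Finset.sum_le_sum_of_subset_of_nonneg hsub fun S hS' _ =>
      Finset.sum_nonneg fun T hT' => hnn S hS' T hT').trans ?_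
    simp only [← Finset.sum_mul]
    exact mul_le_mul_of_nonneg_right hB2 hμC
  have hG3 : GS np (PM K M) M ≤ |C₂| * L := by
    refine (hC₂ M hM).trans ?_
    have : 1 + Real.log M ≤ L := by rw [hL]; linarith
    calc C₂ * (1 + Real.log M) ≤ |C₂| * (1 + Real.log M) := by
          gcongr
          exact le_abs_self _
      _ ≤ |C₂| * L := by gcongr
  unfold Dr
  rw [norm_mul, Complex.norm_real, Real.norm_of_nonneg hw0]
  calc w * ‖_‖ ≤ w * (2 ^ ((pf I).card + (pf J).card) * GS np (PM K M) M ^ 3 *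
        (|C₁| * (2 * L) * μ)) := mul_le_mul_of_nonneg_left hsum hw0
    _ ≤ w * (2 ^ ((pf I).card + (pf J).card) * (|C₂| * L) ^ 3 * (|C₁| * (2 * L) * μ)) := by
        gcongr
    _ = |C₂| ^ 3 * (2 * |C₁|) * (2 ^ ((pf I).card + (pf J).card) * w) * L ^ 4 * μ := by ring
    _ ≤ (|C₂| ^ 3 * (2 * |C₁|) + 1) * (2 ^ ((pf I).card + (pf J).card) * w) * L ^ 4 * μ := by
        gcongr
        linarith
    _ = _ := by rw [wt]

end Pool.Agent.H53.SM
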